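import Mathlib

/-!
# Maximal pattern-free words: the two ends of the pattern

A pattern over the alphabet `A` with variables in `V` is a nonempty word over `A ⊕ V`; the letters
of `A` are constants. If both end letters of the pattern are constants and `A` has two letters, then
NO word is maximal pattern-free, so the question has a negative answer. If an end letter of the
pattern is a variable that occurs only once, then every pattern-free word is a factor of a maximal
one.
-/

namespace Pool.Agent.Results.MP_2432f5_co.ConstantEnds

/-- the image of a pattern under the morphism that fixes the constants and sends `x` to `h x` -/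
def subst {A V : Type} (h : V → List A) : List (A ⊕ V) → List A
  | [] => []
  | Sum.inl a :: p => a :: subst h p
  | Sum.inr x :: p => h x ++ subst h p

/-- `w` encounters `p`: for some non-erasing morphism the image of `p` is a factor of `w` -/
def Enc {A V : Type} (p : List (A ⊕ V)) (w : List A) : Prop :=
  ∃ h : V → List A, (∀ x, h x ≠ []) ∧ subst h p <:+: w

/-- `u` is maximal `p`-free: it avoids `p`, and every word `a u b` encounters `p` -/
def MaxFree {A V : Type} (p : List (A ⊕ V)) (u : List A) : Prop :=
  ¬ Enc p u ∧ ∀ a b : A, Enc p (a :: (u ++ [b]))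

/-- the assertion of the question: every `p`-free word is a factor of a maximal `p`-free word -/
def Q1 : Prop :=
  ∀ (A V : Type) [Finite A] [Finite V] (p : List (A ⊕ V)), p ≠ [] → ∀ w : List A, ¬ Enc p w →
    ∃ u : List A, MaxFree p u ∧ w <:+: u

variable {A V : Type}

theorem subst_append (h : V → List A) (p q : List (A ⊕ V)) :
    subst h (p ++ q) = subst h p ++ subst h q := by
  induction p with
  | nil => simp [subst]
  | cons s p ih => cases s <;> simp [subst, ih]

theorem subst_congr (h h' : V → List A) (p : List (A ⊕ V))
    (H : ∀ x, Sum.inr x ∈ p → h x = h' x) : subst h p = subst h' p := by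
  induction p with
  | nil => simp [subst]
  | cons s p ih =>
    have h1 : ∀ x, Sum.inr x ∈ p → h x = h' x := fun x hx => H x (List.mem_cons_of_mem _ hx)
    cases s with
    | inl a => simp [subst, ih h1]
    | inr x => simp [subst, ih h1, H x (by simp)]

theorem enc_mono {p : List (A ⊕ V)} {w w' : List A} (hw : w <:+: w') (h : Enc p w) : Enc p w' := by
  obtain ⟨f, hf, hs⟩ := h
  exact ⟨f, hf, hs.trans hw⟩

/-- a constant at the front: adding another letter in front creates no occurrence -/
theorem front (c a : A) (r : List (A ⊕ V)) (w : List A) (hac : a ≠ c)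
    (h : Enc (Sum.inl c :: r) (a :: w)) : Enc (Sum.inl c :: r) w := by
  obtain ⟨f, hf, t1, t2, ht⟩ := h
  refine ⟨f, hf, ?_⟩
  cases t1 with
  | nil => simp [subst] at ht; exact absurd ht.1.symm hac
  | cons b t1 =>
    simp only [List.cons_append, List.cons.injEq] at ht
    exact ⟨t1, t2, ht.2⟩

/-- a constant at the back: adding another letter at the back creates no occurrence -/
theorem back (d b : A) (r : List (A ⊕ V)) (w : List A) (hbd : b ≠ d)
    (h : Enc (r ++ [Sum.inl d]) (w ++ [b])) : Enc (r ++ [Sum.inl d]) w := by
  obtain ⟨f, hf, t1, t2, ht⟩ := h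
  refine ⟨f, hf, ?_⟩
  rcases List.eq_nil_or_concat t2 with h2 | ⟨t, e, h2⟩
  · subst h2
    rw [subst_append] at ht
    simp only [subst, List.append_nil] at ht
    rw [← List.append_assoc] at ht
    have := (List.append_inj' ht (by simp)).2
    simp only [List.cons.injEq, and_true] at this
    exact absurd this.symm hbd
  · rw [List.concat_eq_append] at h2
    subst h2
    rw [← List.append_assoc] at ht
    exact ⟨t1, t, (List.append_inj' ht (by simp)).1⟩

/-- both end letters are constants: there is no maximal `p`-free word -/
theorem no_max (hA : ∃ a b : A, a ≠ b) (p : List (A ⊕ V)) (c d : A) (r r' : List (A ⊕ V))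
    (h1 : p = Sum.inl c :: r) (h2 : p = r' ++ [Sum.inl d]) (u : List A) : ¬ MaxFree p u := by
  rintro ⟨hu, hmax⟩
  have key : ∀ c : A, ∃ a : A, a ≠ c := by
    intro c
    obtain ⟨a, b, hab⟩ := hA
    by_cases h : a = c
    · exact ⟨b, fun hb => hab (h.trans hb.symm)⟩
    · exact ⟨a, h⟩
  obtain ⟨a, ha⟩ := key c
  obtain ⟨b, hb⟩ := key d
  have h3 := hmax a b
  rw [h1] at h3
  have h4 := front c a r (u ++ [b]) ha h3
  rw [← h1, h2] at h4
  have h5 := back d b r' u hb h4
  rw [← h2] at h5
  exact hu h5

/-- occurrences of `q y`, `y` a variable not in `q` -/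
theorem enc_right (q : List (A ⊕ V)) (y : V) (hy : Sum.inr y ∉ q) (w : List A) :
    Enc (q ++ [Sum.inr y]) w ↔ ∃ (w' : List A) (b : A), w = w' ++ [b] ∧ Enc q w' := by
  classical
  constructor
  · rintro ⟨f, hf, t1, t2, ht⟩
    rw [subst_append] at ht
    simp only [subst, List.append_nil] at ht
    rcases List.eq_nil_or_concat (f y ++ t2) with h | ⟨z, b, h⟩
    · exact absurd (List.append_eq_nil_iff.1 h).1 (hf y)
    · rw [List.concat_eq_append] at h
      refine ⟨t1 ++ subst f q ++ z, b, ?_, f, hf, t1, z, rfl⟩
      rw [← ht, List.append_assoc (t1 ++ subst f q), ← h]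
      simp [List.append_assoc]
  · rintro ⟨w', b, rfl, f, hf, t1, t2, ht⟩
    refine ⟨Function.update f y (t2 ++ [b]), ?_, t1, [], ?_⟩
    · intro x
      by_cases hx : x = y
      · subst hx; simp
      · rw [Function.update_of_ne hx]; exact hf x
    · rw [subst_append]
      simp only [subst, List.append_nil, Function.update_self]
      rw [subst_congr (Function.update f y (t2 ++ [b])) f q
        (fun x hx => Function.update_of_ne (by rintro rfl; exact hy hx) _ _)]
      rw [← ht]
      simp [List.append_assoc]

/-- occurrences of `y q`, `y` a variable not in `q` -/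
theorem enc_left (q : List (A ⊕ V)) (y : V) (hy : Sum.inr y ∉ q) (w : List A) :
    Enc (Sum.inr y :: q) w ↔ ∃ (w' : List A) (b : A), w = b :: w' ∧ Enc q w' := by
  classical
  constructor
  · rintro ⟨f, hf, t1, t2, ht⟩
    simp only [subst] at ht
    cases h : t1 ++ f y with
    | nil => exact absurd (List.append_eq_nil_iff.1 h).2 (hf y)
    | cons b z =>
      refine ⟨z ++ subst f q ++ t2, b, ?_, f, hf, z, t2, rfl⟩
      rw [← ht, ← List.append_assoc t1, h]
      simp [List.append_assoc]
  · rintro ⟨w', b, rfl, f, hf, t1, t2, ht⟩
    refine ⟨Function.update f y (b :: t1), ?_, [], t2, ?_⟩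
    · intro x
      by_cases hx : x = y
      · subst hx; simp
      · rw [Function.update_of_ne hx]; exact hf x
    · simp only [subst, List.nil_append, Function.update_self]
      rw [subst_congr (Function.update f y (b :: t1)) f q
        (fun x hx => Function.update_of_ne (by rintro rfl; exact hy hx) _ _)]
      rw [← ht]
      simp [List.append_assoc]

theorem ext_right (q : List (A ⊕ V)) (y : V) (hy : Sum.inr y ∉ q) (v : List A) :
    ∀ w : List A, ¬ Enc (q ++ [Sum.inr y]) w → Enc q (w ++ v) →
      ∃ u : List A, MaxFree (q ++ [Sum.inr y]) u ∧ w <:+: u := by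
  have base : ∀ w : List A, ¬ Enc (q ++ [Sum.inr y]) w → Enc q w →
      ∃ u : List A, MaxFree (q ++ [Sum.inr y]) u ∧ w <:+: u := by
    intro w hw hq
    refine ⟨w, ⟨hw, fun a b => ?_⟩, List.infix_rfl⟩
    rw [enc_right q y hy]
    exact ⟨a :: w, b, rfl, enc_mono ⟨[a], [], by simp⟩ hq⟩
  induction v with
  | nil => intro w hw hq; exact base w hw (by simpa using hq)
  | cons c v ih =>
    intro w hw hq
    by_cases h : Enc q w
    · exact base w hw h
    · have h1 : ¬ Enc (q ++ [Sum.inr y]) (w ++ [c]) := by
        rw [enc_right q y hy]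
        rintro ⟨w', b, hb, hw'⟩
        have := (List.append_inj' hb (by simp)).1
        exact h (this ▸ hw')
      obtain ⟨u, hu, hwu⟩ := ih (w ++ [c]) h1 (by simpa [List.append_assoc] using hq)
      exact ⟨u, hu, List.IsInfix.trans ⟨[], [c], by simp⟩ hwu⟩

theorem ext_left (q : List (A ⊕ V)) (y : V) (hy : Sum.inr y ∉ q) (v : List A) :
    ∀ w : List A, ¬ Enc (Sum.inr y :: q) w → Enc q (v ++ w) →
      ∃ u : List A, MaxFree (Sum.inr y :: q) u ∧ w <:+: u := by
  have base : ∀ w : List A, ¬ Enc (Sum.inr y :: q) w → Enc q w →
      ∃ u : List A, MaxFree (Sum.inr y :: q) u ∧ w <:+: u := by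
    intro w hw hq
    refine ⟨w, ⟨hw, fun a b => ?_⟩, List.infix_rfl⟩
    rw [enc_left q y hy]
    exact ⟨w ++ [b], a, rfl, enc_mono ⟨[], [b], by simp⟩ hq⟩
  induction v using List.reverseRecOn with
  | nil => intro w hw hq; exact base w hw (by simpa using hq)
  | append_singleton v c ih =>
    intro w hw hq
    by_cases h : Enc q w
    · exact base w hw h
    · have h1 : ¬ Enc (Sum.inr y :: q) (c :: w) := by
        rw [enc_left q y hy]
        rintro ⟨w', b, hb, hw'⟩
        simp only [List.cons.injEq] at hb
        exact h (hb.2 ▸ hw')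
      obtain ⟨u, hu, hwu⟩ := ih (c :: w) h1 (by simpa [List.append_assoc] using hq)
      exact ⟨u, hu, List.IsInfix.trans ⟨[c], [], by simp⟩ hwu⟩

theorem exists_enc (q : List (A ⊕ V)) (a : A) : Enc q (subst (fun _ => [a]) q) :=
  ⟨fun _ => [a], fun _ => by simp, List.infix_rfl⟩

/-- one letter: the answer is positive -/
theorem unary [Subsingleton A] (p : List (A ⊕ V)) (w : List A)
    (hw : ¬ Enc p w) : ∃ u : List A, MaxFree p u ∧ w <:+: u := by
  by_cases hA : Nonempty A
  · obtain ⟨a⟩ := hA
    have all : ∀ l : List A, l = List.replicate l.length a := fun l =>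
      List.eq_replicate_iff.2 ⟨rfl, fun b _ => Subsingleton.elim b a⟩
    have hlen : ∀ l l' : List A, l.length ≤ l'.length → l <:+: l' := by
      intro l l' h
      rw [all l, all l']
      exact ⟨[], List.replicate (l'.length - l.length) a, by
        simp only [List.nil_append, ← List.replicate_add]; congr 1; omega⟩
    set s := subst (fun _ => [a]) p with hs
    have henc : ∀ l : List A, s.length ≤ l.length → Enc p l := fun l h =>
      ⟨fun _ => [a], fun _ => by simp, hlen _ _ h⟩
    have hle : w.length < s.length := by
      by_contra h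
      exact hw (henc w (by omega))
    have key : ∀ (f : V → List A), (∀ x, f x ≠ []) → s.length ≤ (subst f p).length := by
      intro f hf
      rw [hs]
      clear hs henc hle hw
      induction p with
      | nil => simp [subst]
      | cons t p ih =>
        cases t with
        | inl b => simpa [subst] using ih
        | inr x =>
          have := List.length_pos_of_ne_nil (hf x)
          simp only [subst, List.length_append, List.length_cons, List.length_nil]
          omega
    refine ⟨List.replicate (s.length - 1) a, ⟨?_, ?_⟩, hlen _ _ ?_⟩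
    · rintro ⟨f, hf, hi⟩
      have h1 := hi.length_le
      have h2 := key f hf
      rw [List.length_replicate] at h1
      omega
    · intro b c
      apply henc
      simp
      omega
    · rw [List.length_replicate]
      omega
  · refine ⟨w, ⟨hw, fun a => (hA ⟨a⟩).elim⟩, List.infix_rfl⟩

theorem result :
    -- the question has a negative answer
    ¬ Q1 ∧
    -- both end letters of the pattern are constants, at least two letters: no word is maximal
    (∀ (A V : Type) (p : List (A ⊕ V)) (c d : A), p.head? = some (Sum.inl c) →
      p.getLast? = some (Sum.inl d) → (∃ a b : A, a ≠ b) → ∀ u : List A, ¬ MaxFree p u) ∧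
    -- the last or the first letter of the pattern is a variable that occurs only once
    (∀ (A V : Type) (q : List (A ⊕ V)) (y : V), Sum.inr y ∉ q →
      ∀ p ∈ [q ++ [Sum.inr y], Sum.inr y :: q], ∀ w : List A, ¬ Enc p w →
        ∃ u : List A, MaxFree p u ∧ w <:+: u) ∧
    -- alphabets with at most one letter
    (∀ (A V : Type) (p : List (A ⊕ V)), Subsingleton A → ∀ w : List A, ¬ Enc p w →
      ∃ u : List A, MaxFree p u ∧ w <:+: u) := by
  have main : ∀ (A V : Type) (p : List (A ⊕ V)) (c d : A), p.head? = some (Sum.inl c) →
      p.getLast? = some (Sum.inl d) → (∃ a b : A, a ≠ b) → ∀ u : List A, ¬ MaxFree p u := by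
    intro A V p c d h1 h2 hA u
    obtain ⟨r, hr⟩ : ∃ r, p = Sum.inl c :: r := by
      cases p with
      | nil => simp at h1
      | cons t p => simp only [List.head?_cons, Option.some.injEq] at h1; exact ⟨p, by rw [h1]⟩
    obtain ⟨r', hr'⟩ : ∃ r', p = r' ++ [Sum.inl d] := by
      rcases List.eq_nil_or_concat p with h | ⟨t, e, h⟩
      · rw [h] at h2; simp at h2
      · rw [List.concat_eq_append] at h
        rw [h] at h2
        simp only [List.getLast?_append, List.getLast?_singleton, Option.some_or,
          Option.some.injEq] at h2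
        exact ⟨t, by rw [h, h2]⟩
    exact no_max hA p c d r r' hr hr' u
  refine ⟨?_, main, ?_, ?_⟩
  · intro hQ
    have h := hQ Bool Unit [Sum.inl true, Sum.inr (), Sum.inr (), Sum.inl true] (by simp) [] (by
      rintro ⟨f, hf, hi⟩
      have := hi.length_le
      simp [subst] at this)
    obtain ⟨u, hu, -⟩ := h
    exact main Bool Unit _ true true (by simp) (by simp) ⟨true, false, by simp⟩ u hu
  · intro A V q y hy p hp w hw
    by_cases hA : Nonempty A
    · obtain ⟨a⟩ := hA
      simp only [List.mem_cons, List.not_mem_nil, or_false] at hp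
      rcases hp with rfl | rfl
      · exact ext_right q y hy (subst (fun _ => [a]) q) w hw
          (enc_mono ⟨w, [], by simp⟩ (exists_enc q a))
      · exact ext_left q y hy (subst (fun _ => [a]) q) w hw
          (enc_mono ⟨[], w, by simp⟩ (exists_enc q a))
    · exact ⟨w, ⟨hw, fun a => (hA ⟨a⟩).elim⟩, List.infix_rfl⟩
  · intro A V p hA w hw
    exact unary p w hw

end Pool.Agent.Results.MP_2432f5_co.ConstantEnds
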